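import Pool.Agent.H547.CV.Stm

set_option autoImplicit false

/-!
# CV322 B: the exact identity for the convolution sum, `x = 16`
-/

namespace Pool.Agent.H264.CV322.B

open Finset Pool.Agent.H547.CV
open scoped Nat

theorem w_succ (l : ℕ) : w (l + 1) = w l * (2 * l + 1) / (2 * (l + 1)) := by
  unfold w
  have h1 := Nat.succ_mul_centralBinom_succ l
  have h2 : ((l : ℚ) + 1) * (Nat.centralBinom (l + 1) : ℚ) =
      2 * (2 * l + 1) * (Nat.centralBinom l : ℚ) := by exact_mod_cast h1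
  have h3 : (l : ℚ) + 1 ≠ 0 := by positivity
  have h4 : (Nat.centralBinom (l + 1) : ℚ) =
      2 * (2 * l + 1) * (Nat.centralBinom l : ℚ) / (l + 1) := by
    rw [eq_div_iff h3]
    linarith
  rw [h4, pow_succ]
  field_simp
  ring

theorem h_symm (l i : ℕ) : h l i = h i l := by
  unfold h
  by_cases h0 : l = 0 ∧ i = 0
  · rw [if_pos h0, if_pos h0.symm]
  · rw [if_neg h0, if_neg fun h1 => h0 h1.symm, add_comm l i]
    ring

theorem h_succ (l i : ℕ) (h0 : ¬ (l = 0 ∧ i = 0)) :
    h (l + 1) i = h l i * ((2 * l + 1) * (l + i)) / (2 * (l + 1) ^ 2) := by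
  obtain ⟨s, hs⟩ : ∃ s, l + i = s + 1 := ⟨l + i - 1, by omega⟩
  unfold h
  rw [if_neg (by omega), if_neg h0, w_succ]
  have e1 : l + 1 + i - 1 = s + 1 := by omega
  have e2 : l + i - 1 = s := by omega
  rw [e1, e2, Nat.factorial_succ s, Nat.factorial_succ l]
  have e3 : (l : ℚ) + i = s + 1 := by exact_mod_cast hs
  rw [e3]
  have h3 : (l : ℚ) + 1 ≠ 0 := by positivity
  have h4 : (l ! : ℚ) ≠ 0 := by positivity
  have h5 : (i ! : ℚ) ≠ 0 := by positivity
  push_cast
  field_simp

def fF (l i : ℕ) : ℚ := (l : ℚ) ^ 2 * h l i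

def gG (l i : ℕ) : ℚ := (i : ℚ) ^ 2 * h l i

theorem step (l i : ℕ) : fF (l + 1) i - fF l i = gG l (i + 1) - gG l i := by
  unfold fF gG
  by_cases h0 : l = 0 ∧ i = 0
  · obtain ⟨rfl, rfl⟩ := h0
    simp [h, w, Nat.centralBinom]
  · have h3 : (l : ℚ) + 1 ≠ 0 := by positivity
    have h4 : (i : ℚ) + 1 ≠ 0 := by positivity
    rw [h_succ l i h0, h_symm l (i + 1), h_succ i l fun h1 => h0 h1.symm, h_symm i l]
    push_cast
    field_simp
    ring

/-- the primitive -/
def Psi (l i : ℕ) : ℚ := ∑ m ∈ range i, fF l m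

theorem Psi_zero (l : ℕ) : Psi l 0 = 0 := by simp [Psi]

theorem zero_Psi (i : ℕ) : Psi 0 i = 0 := by simp [Psi, fF]

theorem Psi_right (l i : ℕ) : Psi l (i + 1) - Psi l i = fF l i := by
  unfold Psi
  rw [sum_range_succ]
  ring

theorem Psi_left (l i : ℕ) : Psi (l + 1) i - Psi l i = gG l i := by
  unfold Psi
  rw [← sum_sub_distrib, sum_congr rfl fun m _ => step l m, sum_range_sub]
  simp [gG]

theorem fact_two (k : ℕ) : ((2 * k)! : ℚ) = (Nat.centralBinom k : ℚ) * (k ! : ℚ) * (k ! : ℚ) := by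
  have h1 := Nat.choose_mul_factorial_mul_factorial (show k ≤ 2 * k by omega)
  have e : 2 * k - k = k := by omega
  rw [e, ← Nat.centralBinom_eq_two_mul_choose] at h1
  exact_mod_cast h1.symm

theorem diag (k : ℕ) : 2 * (fF (k + 1) k + gG k k) = b3 k / 16 ^ k := by
  unfold fF gG b3
  obtain ⟨c, hc⟩ : ∃ c : ℚ, c = (Nat.centralBinom k : ℚ) := ⟨_, rfl⟩
  have hw : w k = c / 4 ^ k := by rw [hc]; rfl
  have hf := fact_two k
  rw [← hc] at hf
  have h3 : (k : ℚ) + 1 ≠ 0 := by positivity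
  have h4 : (k ! : ℚ) ≠ 0 := by positivity
  have e1 : h (k + 1) k = w k * (2 * k + 1) / (2 * (k + 1)) * w k * (c * (k ! : ℚ) * (k ! : ℚ)) /
      (((k : ℚ) + 1) * (k ! : ℚ) * (k ! : ℚ)) := by
    unfold h
    rw [if_neg (by omega), w_succ]
    have e2 : k + 1 + k - 1 = 2 * k := by omega
    rw [e2, hf, Nat.factorial_succ]
    push_cast
    ring
  have e3 : (k : ℚ) ^ 2 * h k k = (k : ℚ) / 2 * (w k * w k * c) := by
    rcases Nat.eq_zero_or_pos k with h0 | h0
    · rw [h0]
      simp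
    · have hk : (k : ℚ) ≠ 0 := by positivity
      unfold h
      rw [if_neg (by omega)]
      have e4 : k + k - 1 + 1 = 2 * k := by omega
      have e5 : ((2 * k)! : ℚ) = (2 * k) * ((k + k - 1)! : ℚ) := by
        rw [← e4, Nat.factorial_succ, e4]
        push_cast
        ring
      have e6 : ((k + k - 1)! : ℚ) = c * (k ! : ℚ) * (k ! : ℚ) / (2 * k) := by
        rw [eq_div_iff (by positivity), ← hf, e5]
        ring
      rw [e6]
      field_simp
  have e16 : (16 : ℚ) ^ k = 4 ^ k * 4 ^ k := by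
    rw [← mul_pow]
    norm_num
  rw [e3, e1, ← hc, hw, e16]
  push_cast
  field_simp
  ring

def beta (j : ℕ) : ℚ := b3 j / 16 ^ j

/-- the partial sums -/
def PP (k : ℕ) : ℚ := 2 * Psi k k

theorem PP_succ (k : ℕ) : PP (k + 1) = PP k + beta k := by
  unfold PP beta
  rw [← diag, ← Psi_right, ← Psi_left]
  ring

theorem PP_zero : PP 0 = 0 := by
  unfold PP
  rw [Psi_zero, mul_zero]

theorem SS_eq (N : ℕ) : SS 16 N = ∑ j ∈ range N, beta j * PP (N - j) := by
  induction N with
  | zero => simp [SS]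
  | succ N ih =>
    have e1 : SS 16 (N + 1) = SS 16 N + ∑ j ∈ range (N + 1), beta j * beta (N - j) := by
      unfold SS
      rw [sum_range_succ, sum_div]
      congr 1
      refine sum_congr rfl fun j hj => ?_
      have hj' : j ≤ N := by
        have := mem_range.1 hj
        omega
      unfold beta
      have e2 : (16 : ℚ) ^ N = 16 ^ j * 16 ^ (N - j) := by
        rw [← pow_add]
        congr 1
        omega
      rw [e2]
      field_simp
    have e3 : ∑ j ∈ range (N + 1), beta j * PP (N + 1 - j) =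
        ∑ j ∈ range (N + 1), beta j * PP (N - j) + ∑ j ∈ range (N + 1), beta j * beta (N - j) := by
      rw [← sum_add_distrib]
      refine sum_congr rfl fun j hj => ?_
      have hj' : j ≤ N := by
        have := mem_range.1 hj
        omega
      have e4 : N + 1 - j = N - j + 1 := by omega
      rw [e4, PP_succ]
      ring
    rw [e1, ih, e3, sum_range_succ (fun j => beta j * PP (N - j)), Nat.sub_self, PP_zero]
    ring

theorem SS_eq2 (N : ℕ) : SS 16 N =
    ∑ m ∈ range N, PP (m + 1) * (PP (N - m) - PP (N - (m + 1))) := by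
  rw [SS_eq, ← sum_range_reflect]
  refine sum_congr rfl fun m hm => ?_
  have hm' : m < N := mem_range.1 hm
  have e1 : N - (N - 1 - m) = m + 1 := by omega
  have e2 : N - m = N - (m + 1) + 1 := by omega
  have e3 : N - 1 - m = N - (m + 1) := by omega
  have e4 : PP (N - m) = PP (N - (m + 1)) + beta (N - (m + 1)) := by
    rw [e2, PP_succ]
  rw [e1, e4, e3]
  ring

theorem main : S_B := by
  intro N
  have h1 := stokes (fun l i => Psi l i) (fun l i => Psi (N - l) (N - i)) N
  have e0 : ∑ m ∈ range N, Psi (m + 1) (m + 1) *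
      (Psi (N - m) (N - m) - Psi (N - (m + 1)) (N - (m + 1))) = SS 16 N / 4 := by
    rw [SS_eq2, sum_div]
    refine sum_congr rfl fun m _ => ?_
    unfold PP
    ring
  have e1 : ∑ m ∈ range N, Psi (m + 1) 0 * (Psi (N - m) (N - 0) - Psi (N - (m + 1)) (N - 0)) =
      0 := by
    refine sum_eq_zero fun m _ => ?_
    rw [Psi_zero, zero_mul]
  have e2 : ∑ i ∈ range N, Psi N (i + 1) * (Psi (N - N) (N - i) - Psi (N - N) (N - (i + 1))) =
      0 := by
    refine sum_eq_zero fun i _ => ?_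
    rw [Nat.sub_self, zero_Psi, zero_Psi, sub_zero, mul_zero]
  have e3 : ∑ m ∈ range N, ∑ i ∈ range (m + 1), (Psi (m + 1) (i + 1) - Psi (m + 1) i) *
      (Psi (N - m) (N - i) - Psi (N - (m + 1)) (N - i)) =
      ∑ l ∈ range (N + 1), ∑ i ∈ range l,
        (l : ℚ) ^ 2 * ((N : ℚ) - i) ^ 2 * h l i * h (N - l) (N - i) := by
    rw [sum_range_succ' (fun l => ∑ i ∈ range l,
        (l : ℚ) ^ 2 * ((N : ℚ) - i) ^ 2 * h l i * h (N - l) (N - i)), range_zero, sum_empty,
      add_zero]
    refine sum_congr rfl fun m hm => sum_congr rfl fun i hi => ?_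
    have hm' : m < N := mem_range.1 hm
    have hi' : i < m + 1 := mem_range.1 hi
    have e4 : N - m = N - (m + 1) + 1 := by omega
    have e5 : ((N - i : ℕ) : ℚ) = (N : ℚ) - i := by
      rw [Nat.cast_sub (by omega)]
    rw [Psi_right, e4, Psi_left, fF, gG, e5]
    push_cast
    ring
  have e4 : ∑ l ∈ range N, ∑ i ∈ range l, (Psi (l + 1) (i + 1) - Psi l (i + 1)) *
      (Psi (N - l) (N - i) - Psi (N - l) (N - (i + 1))) =
      ∑ l ∈ range N, ∑ i ∈ range l,
        ((i : ℚ) + 1) ^ 2 * ((N : ℚ) - l) ^ 2 * h l (i + 1) * h (N - l) (N - (i + 1)) := by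
    refine sum_congr rfl fun l hl => sum_congr rfl fun i hi => ?_
    have hl' : l < N := mem_range.1 hl
    have hi' : i < l := mem_range.1 hi
    have e5 : N - i = N - (i + 1) + 1 := by omega
    have e6 : ((N - l : ℕ) : ℚ) = (N : ℚ) - l := by
      rw [Nat.cast_sub (by omega)]
    rw [Psi_left, e5, Psi_right, fF, gG, e6]
    push_cast
    ring
  rw [← e0, ← e3, ← e4]
  have h2 : ∑ m ∈ range N, Psi (m + 1) (m + 1) *
      (Psi (N - m) (N - m) - Psi (N - (m + 1)) (N - (m + 1))) =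
      ∑ m ∈ range N, Psi (m + 1) 0 * (Psi (N - m) (N - 0) - Psi (N - (m + 1)) (N - 0)) +
      ∑ i ∈ range N, Psi N (i + 1) * (Psi (N - N) (N - i) - Psi (N - N) (N - (i + 1))) +
      ∑ m ∈ range N, ∑ i ∈ range (m + 1), (Psi (m + 1) (i + 1) - Psi (m + 1) i) *
        (Psi (N - m) (N - i) - Psi (N - (m + 1)) (N - i)) -
      ∑ l ∈ range N, ∑ i ∈ range l, (Psi (l + 1) (i + 1) - Psi l (i + 1)) *
        (Psi (N - l) (N - i) - Psi (N - l) (N - (i + 1))) := h1
  rw [h2, e1, e2, zero_add, zero_add]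

end Pool.Agent.H264.CV322.B
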